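import Mathlib
import Pool.Agent.N162.GP.Stm
import Pool.Agent.N145.PC.Gen

/-!
# Project GP (helper162): GPR and PAI, pairs of embeddings (helper271)
-/

set_option autoImplicit false

namespace Pool.Agent.N271.GP

open IntermediateField Polynomial

section

variable {L : Type} [Field L] [Algebra ℂ L] (N₀ : IntermediateField ℂ L)

/-- generic pairs -/
theorem pair : ∃ (Ω : Type) (_ : Field Ω) (_ : Algebra ℂ Ω) (_ : IsAlgClosed Ω)
    (ι θ : AlgebraicClosure L →ₐ[ℂ] Ω),
    (∀ a ∈ N₀, ι (algebraMap L (AlgebraicClosure L) a) =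
      θ (algebraMap L (AlgebraicClosure L) a)) ∧
    ∀ a b : AlgebraicClosure L, ι a = θ b → IsAlgebraic N₀ a := by
  obtain ⟨Ω, iF, iC, ι, θ, h1, h2⟩ :=
    Pool.Agent.N145.PC.exists_generic N₀ (AlgebraicClosure L)
  let iA : Algebra ℂ Ω := (ι.comp (algebraMap ℂ (AlgebraicClosure L))).toAlgebra
  have h3 : ∀ a ∈ N₀, ι (algebraMap L (AlgebraicClosure L) a) =
      θ (algebraMap L (AlgebraicClosure L) a) := fun a ha => (h1 ⟨a, ha⟩).symm
  refine ⟨Ω, iF, iA, iC, { ι with commutes' := fun c => rfl }, { θ with commutes' := fun c => ?_ },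
    h3, h2⟩
  have h4 := h3 (algebraMap ℂ L c) (N₀.algebraMap_mem c)
  rw [← IsScalarTower.algebraMap_apply ℂ L (AlgebraicClosure L)] at h4
  exact h4.symm

end

/-- roots of polynomials with coefficients in an algebraically closed subfield -/
lemma mem_range {Ω Ω' : Type} [Field Ω] [IsAlgClosed Ω] [Field Ω'] (ι : Ω →+* Ω') (z : Ω')
    (p : Polynomial Ω) (hp : p ≠ 0) (h : p.eval₂ ι z = 0) : ∃ a, ι a = z := by
  let iA : Algebra Ω Ω' := ι.toAlgebra
  have h1 : IsAlgebraic Ω z := ⟨p, hp, h⟩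
  have h2 : IsIntegral Ω z := h1.isIntegral
  have h3 := IsAlgClosed.degree_eq_one_of_irreducible Ω (minpoly.irreducible h2)
  obtain ⟨a, ha⟩ := minpoly.mem_range_of_degree_eq_one Ω z h3
  exact ⟨a, ha⟩

/-- elements algebraic over the image of `σ` -/
lemma alg_range {L Ω : Type} [Field L] [Field Ω] [Algebra ℂ L] [Algebra ℂ Ω] (σ : L →ₐ[ℂ] Ω)
    {z : Ω} (h : IsAlgebraic σ.fieldRange z) : ∃ p : Polynomial L, p ≠ 0 ∧ p.eval₂ (σ : L →+* Ω) z = 0 := by
  let f : L →+* σ.fieldRange :=
    { toFun := fun a => ⟨σ a, ⟨a, rfl⟩⟩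
      map_one' := Subtype.ext (map_one σ)
      map_mul' := fun a b => Subtype.ext (map_mul σ a b)
      map_zero' := Subtype.ext (map_zero σ)
      map_add' := fun a b => Subtype.ext (map_add σ a b) }
  have hf : Function.Bijective f := ⟨f.injective, fun c => by
    obtain ⟨c, a, ha⟩ := c
    exact ⟨a, Subtype.ext ha⟩⟩
  let e : L ≃+* σ.fieldRange := RingEquiv.ofBijective f hf
  obtain ⟨p, hp0, hp⟩ := h
  refine ⟨p.map (e.symm : σ.fieldRange →+* L), ?_, ?_⟩
  · rwa [Ne, Polynomial.map_eq_zero]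
  · rw [eval₂_map]
    rw [aeval_def] at hp
    rw [← hp]
    congr 1
    ext c
    obtain ⟨a, rfl⟩ := e.surjective c
    show σ (e.symm (e a)) = _
    rw [e.symm_apply_apply]
    rfl

theorem gpr_ : Pool.Agent.N162.GP.StGPR := by
  intro L _ _ N₀ n hL hN
  obtain ⟨Ω, iF, iA, iC, ι, θ, h1, h2⟩ := pair N₀
  refine ⟨Ω, iF, iA, iC, ι.comp (IsScalarTower.toAlgHom ℂ L (AlgebraicClosure L)),
    θ.comp (IsScalarTower.toAlgHom ℂ L (AlgebraicClosure L)), h1, ?_⟩
  intro K _ _ hK ρ h3 h4
  have h5 : ∀ b, ∃ a, ι a = ρ b := by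
    intro b
    obtain ⟨p, hp0, hp⟩ := alg_range _ (h3 b)
    refine mem_range (ι : AlgebraicClosure L →+* Ω) (ρ b)
      (p.map (algebraMap L (AlgebraicClosure L))) ?_ ?_
    · rwa [Ne, Polynomial.map_eq_zero]
    · rw [eval₂_map]
      exact hp
  have h6 : ∀ b, ∃ a, θ a = ρ b := by
    intro b
    obtain ⟨p, hp0, hp⟩ := alg_range _ (h4 b)
    refine mem_range (θ : AlgebraicClosure L →+* Ω) (ρ b)
      (p.map (algebraMap L (AlgebraicClosure L))) ?_ ?_
    · rwa [Ne, Polynomial.map_eq_zero]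
    · rw [eval₂_map]
      exact hp
  choose j hj using h5
  have hinj : Function.Injective ι := ι.toRingHom.injective
  have hjalg : ∀ b, IsAlgebraic N₀ (j b) := by
    intro b
    obtain ⟨a', ha'⟩ := h6 b
    exact h2 (j b) a' ((hj b).trans ha'.symm)
  let E := algebraicClosure N₀ (AlgebraicClosure L)
  let j' : K →ₐ[ℂ] E :=
    { toFun := fun b => ⟨j b, mem_algebraicClosure_iff.2 (hjalg b)⟩
      map_one' := Subtype.ext (hinj (by
        show ι (j 1) = ι 1
        rw [hj, map_one, map_one]))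
      map_mul' := fun a b => Subtype.ext (hinj (by
        show ι (j (a * b)) = ι (j a * j b)
        rw [hj, map_mul, map_mul, hj, hj]))
      map_zero' := Subtype.ext (hinj (by
        show ι (j 0) = ι 0
        rw [hj, map_zero, map_zero]))
      map_add' := fun a b => Subtype.ext (hinj (by
        show ι (j (a + b)) = ι (j a + j b)
        rw [hj, map_add, map_add, hj, hj]))
      commutes' := fun c => Subtype.ext (hinj (by
        show ι (j (algebraMap ℂ K c)) = ι (algebraMap ℂ (AlgebraicClosure L) c)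
        rw [hj, AlgHom.commutes, AlgHom.commutes])) }
  have h7 : Algebra.trdeg ℂ K ≤ Algebra.trdeg ℂ E :=
    trdeg_le_of_injective j' j'.toRingHom.injective
  have hEalg : Algebra.IsAlgebraic N₀ E := inferInstance
  have h8 : Algebra.trdeg ℂ N₀ + Algebra.trdeg N₀ E = Algebra.trdeg ℂ E :=
    trdeg_add_eq ℂ N₀
  have h9 : Algebra.trdeg ℂ N₀ + Algebra.trdeg N₀ L = Algebra.trdeg ℂ L :=
    trdeg_add_eq ℂ N₀
  rw [trdeg_eq_zero (R := N₀) (A := E), add_zero] at h8
  rw [hK, ← h8] at h7
  rw [hL] at h9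
  have h10 : Algebra.trdeg N₀ L ≠ 0 := by
    rw [Ne, trdeg_eq_zero_iff]
    exact hN
  have h11 : Algebra.trdeg ℂ N₀ ≤ n := by
    rw [← h9]
    exact self_le_add_right _ _
  have h12 : Algebra.trdeg ℂ N₀ = n := le_antisymm h11 h7
  rw [h12] at h9
  apply h10
  have h13 : (n : Cardinal) + Algebra.trdeg N₀ L = n + 0 := by rw [h9, add_zero]
  exact Cardinal.eq_of_add_eq_add_left h13 (Cardinal.natCast_lt_aleph0)

theorem pai_ : Pool.Agent.N162.GP.StPAI := by
  intro L _ _ N₀ hN₀
  by_cases halg : Algebra.IsAlgebraic N₀ L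
  · obtain ⟨w, hw⟩ : ∃ w, w ∉ N₀ := by
      by_contra h
      push Not at h
      exact hN₀ (eq_top_iff.2 fun w _ => h w)
    have hΩN : Algebra.IsAlgebraic N₀ (AlgebraicClosure L) :=
      Algebra.IsAlgebraic.trans N₀ L (AlgebraicClosure L)
    have hcl : IsAlgClosure N₀ (AlgebraicClosure L) := ⟨inferInstance, hΩN⟩
    have hchar : CharZero N₀ := charZero_of_injective_algebraMap (algebraMap ℂ N₀).injective
    have hgal : IsGalois N₀ (AlgebraicClosure L) := inferInstance
    have h1 : ¬ algebraMap L (AlgebraicClosure L) w ∈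
        Set.range (algebraMap N₀ (AlgebraicClosure L)) := by
      rintro ⟨c, hc⟩
      apply hw
      have h2 : algebraMap L (AlgebraicClosure L) (c : L) =
          algebraMap L (AlgebraicClosure L) w := hc
      rw [← (algebraMap L (AlgebraicClosure L)).injective h2]
      exact c.2
    rw [InfiniteGalois.mem_range_algebraMap_iff_fixed] at h1
    push Not at h1
    obtain ⟨θ, hθ⟩ := h1
    have hθN : ∀ c ∈ N₀, θ (algebraMap L (AlgebraicClosure L) c) =
        algebraMap L (AlgebraicClosure L) c := fun c hc => θ.commutes ⟨c, hc⟩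
    let j2 : AlgebraicClosure L →ₐ[ℂ] AlgebraicClosure L :=
      { (θ : AlgebraicClosure L →+* AlgebraicClosure L) with
        commutes' := fun c => by
          have h2 := hθN (algebraMap ℂ L c) (N₀.algebraMap_mem c)
          change θ (algebraMap ℂ (AlgebraicClosure L) c) = algebraMap ℂ (AlgebraicClosure L) c
          rw [IsScalarTower.algebraMap_apply ℂ L (AlgebraicClosure L)]
          exact h2 }
    refine ⟨AlgebraicClosure L, inferInstance, inferInstance, inferInstance,
      IsScalarTower.toAlgHom ℂ L (AlgebraicClosure L),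
      j2.comp (IsScalarTower.toAlgHom ℂ L (AlgebraicClosure L)), ?_, ?_⟩
    · intro a ha
      exact (hθN a ha).symm
    · intro h
      apply hθ
      exact (congrArg (fun f => f w) h).symm
  · obtain ⟨Ω, iF, iA, iC, ι, θ, h1, h2⟩ := pair N₀
    refine ⟨Ω, iF, iA, iC, ι.comp (IsScalarTower.toAlgHom ℂ L (AlgebraicClosure L)),
      θ.comp (IsScalarTower.toAlgHom ℂ L (AlgebraicClosure L)), h1, ?_⟩
    intro h
    apply halg
    constructor
    intro c
    have h3 : ι (algebraMap L (AlgebraicClosure L) c) = θ (algebraMap L (AlgebraicClosure L) c) :=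
      congrArg (fun f => f c) h
    have h4 := h2 _ _ h3
    exact (isAlgebraic_algebraMap_iff (algebraMap L (AlgebraicClosure L)).injective).1 h4

end Pool.Agent.N271.GP
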